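import Pool.Agent.H6.TP.Fold

/-!
# Lines of tripods
-/

set_option autoImplicit false

namespace Pool.Agent.H6.TP

open Function Set Pool.Agent.H6.CF

variable {V : Type*} {Γ : SimpleGraph V}

/-- tripods with arms of length `n` -/
structure Tp (Γ : SimpleGraph V) (n : ℕ) (s : Fin 3 → ℕ → V) : Prop where
  c : ∀ i j, s i 0 = s j 0
  ver : ∀ i m, m < n → Γ.Adj (s i m) (s i (m + 1))
  v2 : ∀ i m, m + 2 ≤ n → s i m ≠ s i (m + 2)
  v1 : ∀ i j, i ≠ j → 1 ≤ n → s i 1 ≠ s j 1

/-- adjacent tripods -/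
structure Nb (Γ : SimpleGraph V) (n : ℕ) (s t : Fin 3 → ℕ → V) : Prop where
  hor : ∀ i m, m ≤ n → Γ.Adj (s i m) (t i m)
  dg : ∀ i m, m < n → s i m ≠ t i (m + 1)
  ad : ∀ i m, m < n → s i (m + 1) ≠ t i m

/-- equality of tripods with arms of length `n` -/
def Eqn (n : ℕ) (s t : Fin 3 → ℕ → V) : Prop := ∀ i m, m ≤ n → s i m = t i m

/-- tripods which are different everywhere -/
def Nen (n : ℕ) (s t : Fin 3 → ℕ → V) : Prop := ∀ i m, m ≤ n → s i m ≠ t i m

theorem Nb.symm {n : ℕ} {s t : Fin 3 → ℕ → V} (h : Nb Γ n s t) : Nb Γ n t s where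
  hor := fun i m hm => (h.hor i m hm).symm
  dg := fun i m hm => (h.ad i m hm).symm
  ad := fun i m hm => (h.dg i m hm).symm

theorem Eqn.symm {n : ℕ} {s t : Fin 3 → ℕ → V} (h : Eqn n s t) : Eqn n t s :=
  fun i m hm => (h i m hm).symm

theorem Nb.congr {n : ℕ} {s t s' : Fin 3 → ℕ → V} (h : Nb Γ n s t) (e : Eqn n s s') :
    Nb Γ n s' t where
  hor := fun i m hm => by rw [← e i m hm]; exact h.hor i m hm
  dg := fun i m hm => by rw [← e i m (by omega)]; exact h.dg i m hm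
  ad := fun i m hm => by rw [← e i (m + 1) (by omega)]; exact h.ad i m hm

/-- two neighbours of a tripod are equal or different everywhere -/
theorem det (hΓ : IsMedian Γ) {n : ℕ} {s t t' : Fin 3 → ℕ → V} (hs : Tp Γ n s) (ht : Tp Γ n t)
    (ht' : Tp Γ n t') (h : Nb Γ n s t) (h' : Nb Γ n s t') : Eqn n t t' ∨ Nen n t t' := by
  have up : ∀ i m, m < n → t i m = t' i m → t i (m + 1) = t' i (m + 1) := by
    intro i m hm e
    by_contra hne
    refine h.ad i m hm (hΓ.common_nbr (p := s i (m + 1)) (r := t i m) (a := s i m)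
      (b := t i (m + 1)) (c := t' i (m + 1)) (hs.ver i m hm).symm (h.hor i _ (by omega))
      (h'.hor i _ (by omega)) (h.hor i m (by omega)).symm (ht.ver i m hm) ?_ (h.dg i m hm) hne
      (h'.dg i m hm))
    rw [e]
    exact ht'.ver i m hm
  have down : ∀ i m, m < n → t i (m + 1) = t' i (m + 1) → t i m = t' i m := by
    intro i m hm e
    by_contra hne
    refine h.dg i m hm (hΓ.common_nbr (p := s i m) (r := t i (m + 1)) (a := s i (m + 1))
      (b := t i m) (c := t' i m) (hs.ver i m hm) (h.hor i _ (by omega))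
      (h'.hor i _ (by omega)) (h.hor i (m + 1) (by omega)).symm (ht.ver i m hm).symm ?_
      (h.ad i m hm) hne (h'.ad i m hm))
    rw [e]
    exact (ht'.ver i m hm).symm
  by_cases hex : ∃ i m, m ≤ n ∧ t i m = t' i m
  · left
    obtain ⟨i, m, hm, e⟩ := hex
    have e0 : t i 0 = t' i 0 := by
      induction m with
      | zero => exact e
      | succ m ih => exact ih (by omega) (down i m (by omega) e)
    intro j k
    induction k with
    | zero =>
      intro _
      rw [ht.c j i, ht'.c j i, e0]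
    | succ k ih =>
      intro hk
      exact up j k (by omega) (ih (by omega))
  · right
    push Not at hex
    exact hex

/-- lines of tripods -/
structure Ln (Γ : SimpleGraph V) (n : ℕ) (P : ℤ → Fin 3 → ℕ → V) : Prop where
  tp : ∀ x, Tp Γ n (P x)
  nb : ∀ x, Nb Γ n (P x) (P (x + 1))
  nn : ∀ x, Nen n (P x) (P (x + 2))

theorem Ln.shift {n : ℕ} {P : ℤ → Fin 3 → ℕ → V} (h : Ln Γ n P) (c : ℤ) :
    Ln Γ n (fun x => P (x + c)) where
  tp := fun x => h.tp _
  nb := fun x => by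
    have := h.nb (x + c)
    rwa [show x + c + 1 = x + 1 + c by ring] at this
  nn := fun x => by
    have := h.nn (x + c)
    rwa [show x + c + 2 = x + 2 + c by ring] at this

theorem Ln.rev {n : ℕ} {P : ℤ → Fin 3 → ℕ → V} (h : Ln Γ n P) : Ln Γ n (fun x => P (-x)) where
  tp := fun x => h.tp _
  nb := fun x => by
    have := (h.nb (-(x + 1))).symm
    rwa [show -(x + 1) + 1 = -x by ring] at this
  nn := fun x i m hm => by
    have := (h.nn (-(x + 2)) i m hm).symm
    rwa [show -(x + 2) + 2 = -x by ring] at this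

variable {G : Type*} [Group G] [MulAction G V]

theorem Tp.smul (hA : Act G Γ) {n : ℕ} {s : Fin 3 → ℕ → V} (h : Tp Γ n s) (g : G) :
    Tp Γ n (fun i m => g • s i m) where
  c := fun i j => by rw [h.c i j]
  ver := fun i m hm => hA.aut g _ _ (h.ver i m hm)
  v2 := fun i m hm e => h.v2 i m hm (smul_left_cancel g e)
  v1 := fun i j hij hn e => h.v1 i j hij hn (smul_left_cancel g e)

theorem Nb.smul (hA : Act G Γ) {n : ℕ} {s t : Fin 3 → ℕ → V} (h : Nb Γ n s t) (g : G) :
    Nb Γ n (fun i m => g • s i m) (fun i m => g • t i m) where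
  hor := fun i m hm => hA.aut g _ _ (h.hor i m hm)
  dg := fun i m hm e => h.dg i m hm (smul_left_cancel g e)
  ad := fun i m hm e => h.ad i m hm (smul_left_cancel g e)

theorem Ln.smul (hA : Act G Γ) {n : ℕ} {P : ℤ → Fin 3 → ℕ → V} (h : Ln Γ n P) (g : G) :
    Ln Γ n (fun x i m => g • P x i m) where
  tp := fun x => (h.tp x).smul hA g
  nb := fun x => (h.nb x).smul hA g
  nn := fun x i m hm e => h.nn x i m hm (smul_left_cancel g e)

/-- branches of a line of tripods -/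
structure Br (Γ : SimpleGraph V) (n : ℕ) (P : ℤ → Fin 3 → ℕ → V) (x : ℤ)
    (s : ℕ → Fin 3 → ℕ → V) : Prop where
  s0 : Eqn n (s 0) (P x)
  tp : ∀ c, c ≤ n → Tp Γ n (s c)
  nb : ∀ c, c < n → Nb Γ n (s c) (s (c + 1))
  nn : ∀ c, c + 2 ≤ n → Nen n (s c) (s (c + 2))
  n1 : Nen n (s 1) (P (x + 1))
  n2 : Nen n (s 1) (P (x - 1))

theorem Br.rev {n : ℕ} {P : ℤ → Fin 3 → ℕ → V} {x : ℤ} {s : ℕ → Fin 3 → ℕ → V}
    (h : Br Γ n (fun x => P (-x)) x s) : Br Γ n P (-x) s where
  s0 := h.s0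
  tp := h.tp
  nb := h.nb
  nn := h.nn
  n1 := by
    have := h.n2
    rwa [show -(x - 1) = -x + 1 by ring] at this
  n2 := by
    have := h.n1
    rwa [show -(x + 1) = -x - 1 by ring] at this

/-- a line which passes through a tripod of a line without branches follows the line -/
theorem follow (hΓ : IsMedian Γ) {n : ℕ} {P Q : ℤ → Fin 3 → ℕ → V} (hP : Ln Γ n P)
    (hQ : Ln Γ n Q) (hno : ∀ x s, ¬ Br Γ n P x s) {y : ℤ} (h : Eqn n (Q 0) (P y)) :
    Eqn n (Q 1) (P (y + 1)) ∨ Eqn n (Q 1) (P (y - 1)) := by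
  by_contra hcon
  push Not at hcon
  have h1 : Nb Γ n (P y) (Q 1) := by
    have := hQ.nb 0
    rw [zero_add] at this
    exact this.congr h
  have h2 : Nb Γ n (P y) (P (y - 1)) := by
    have := (hP.nb (y - 1)).symm
    rwa [sub_add_cancel] at this
  refine hno y (fun c => Q c) ⟨?_, fun c _ => hQ.tp _, fun c _ => ?_, fun c _ => ?_, ?_, ?_⟩
  · simpa using h
  · have := hQ.nb c
    push_cast
    exact this
  · have := hQ.nn c
    push_cast
    exact this
  · rcases det hΓ (hP.tp y) (hQ.tp 1) (hP.tp (y + 1)) h1 (hP.nb y) with h3 | h3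
    · exact absurd h3 hcon.1
    · simpa using h3
  · rcases det hΓ (hP.tp y) (hQ.tp 1) (hP.tp (y - 1)) h1 h2 with h3 | h3
    · exact absurd h3 hcon.2
    · simpa using h3

theorem follow_nat (hΓ : IsMedian Γ) {n : ℕ} {P Q : ℤ → Fin 3 → ℕ → V} (hP : Ln Γ n P)
    (hQ : Ln Γ n Q) (hno : ∀ x s, ¬ Br Γ n P x s) {y : ℤ} (h0 : Eqn n (Q 0) (P y))
    (h1 : Eqn n (Q 1) (P (y + 1))) (c : ℕ) :
    Eqn n (Q c) (P (y + c)) ∧ Eqn n (Q (c + 1)) (P (y + c + 1)) := by
  induction c with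
  | zero => simpa using ⟨h0, h1⟩
  | succ c ih =>
    obtain ⟨i1, i2⟩ := ih
    have e1 : ((c + 1 : ℕ) : ℤ) = c + 1 := by push_cast; ring
    rw [e1]
    refine ⟨by rw [← add_assoc]; exact i2, ?_⟩
    rcases follow hΓ hP (hQ.shift (c + 1)) hno (y := y + c + 1) (by simpa using i2) with h | h
    · rw [show (1 : ℤ) + (c + 1) = c + 1 + 1 by ring] at h
      rw [show y + ((c : ℤ) + 1) + 1 = y + c + 1 + 1 by ring]
      exact h
    · exfalso
      refine hQ.nn c 0 0 (by omega) ?_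
      rw [i1 0 0 (by omega)]
      have := h 0 0 (by omega)
      rw [show (1 : ℤ) + (c + 1) = c + 2 by ring, show y + (c : ℤ) + 1 - 1 = y + c by ring] at this
      exact this.symm

theorem follow_all (hΓ : IsMedian Γ) {n : ℕ} {P Q : ℤ → Fin 3 → ℕ → V} (hP : Ln Γ n P)
    (hQ : Ln Γ n Q) (hno : ∀ x s, ¬ Br Γ n P x s) {y : ℤ} (h0 : Eqn n (Q 0) (P y))
    (h1 : Eqn n (Q 1) (P (y + 1))) (x : ℤ) : Q x 0 0 = P (y + x) 0 0 := by
  have hno' : ∀ x s, ¬ Br Γ n (fun x => P (-x)) x s := fun x s h => hno _ _ h.rev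
  rcases le_total 0 x with hx | hx
  · obtain ⟨c, rfl⟩ := Int.eq_ofNat_of_zero_le hx
    exact (follow_nat hΓ hP hQ hno h0 h1 c).1 0 0 (by omega)
  · obtain ⟨c, hc⟩ := Int.eq_ofNat_of_zero_le (show 0 ≤ -x by omega)
    have h2 : Eqn n (Q (-1)) (P (y - 1)) := by
      rcases follow hΓ hP hQ.rev hno (y := y) (by simpa using h0) with h | h
      · exfalso
        refine hQ.nn (-1) 0 0 (by omega) ?_
        rw [show (-1 : ℤ) + 2 = 1 by ring, h1 0 0 (by omega)]
        exact h 0 0 (by omega)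
      · exact h
    have := (follow_nat hΓ hP.rev hQ.rev hno' (y := -y) (by simpa using h0) (by
      rw [show -(-y + 1) = y - 1 by ring]
      exact h2) c).1 0 0 (by omega)
    rw [show x = -(c : ℤ) by omega, this]
    congr 1
    ring

theorem follow_or (hΓ : IsMedian Γ) {n : ℕ} {P Q : ℤ → Fin 3 → ℕ → V} (hP : Ln Γ n P)
    (hQ : Ln Γ n Q) (hno : ∀ x s, ¬ Br Γ n P x s) {y : ℤ} (h0 : Eqn n (Q 0) (P y)) :
    (∀ x, Q x 0 0 = P (y + x) 0 0) ∨ ∀ x, Q x 0 0 = P (y - x) 0 0 := by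
  have hno' : ∀ x s, ¬ Br Γ n (fun x => P (-x)) x s := fun x s h => hno _ _ h.rev
  rcases follow hΓ hP hQ hno h0 with h | h
  · exact Or.inl (follow_all hΓ hP hQ hno h0 h)
  · right
    intro x
    have := follow_all hΓ hP.rev hQ hno' (y := -y) (by simpa using h0) (by
      rw [show -(-y + 1) = y - 1 by ring]
      exact h) x
    rw [this]
    congr 1
    ring

theorem tp_dist (hA : Act G Γ) {n : ℕ} {s : Fin 3 → ℕ → V} (h : Tp Γ n s) (i : Fin 3) (m : ℕ)
    (hm : m ≤ n) : Γ.dist (s 0 0) (s i m) ≤ m := by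
  induction m with
  | zero => rw [h.c 0 i]; simp
  | succ m ih =>
    have h1 := ih (by omega)
    have h2 := hA.med.tri (s 0 0) (s i m) (s i (m + 1))
    have h3 := (adj_iff _ _).2 (h.ver i m (by omega))
    omega

/-- equivalent tripods of a line -/
theorem line_repeat (hA : Act G Γ) {n : ℕ} {P : ℤ → Fin 3 → ℕ → V} (hP : Ln Γ n P) (N : ℕ) :
    ∃ a b : ℕ, N < a ∧ a < b ∧ ∃ g : G, Eqn n (fun i m => g • P a i m) (P b) := by
  classical
  obtain ⟨K, hK, hGK⟩ := hA.orb
  choose u hu using fun a : ℕ => hGK (P a 0 0)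
  have hfin : {w : Fin 3 × Fin (n + 1) → V | ∀ i, w i ∈ {w | ∃ v ∈ K, Γ.dist v w ≤ n}}.Finite :=
    Set.Finite.pi' fun _ => hA.ballK hK _
  obtain ⟨a, ha, b, hb, hne, heq⟩ := (Set.Ioi_infinite N).exists_ne_map_eq_of_mapsTo
    (f := fun (a : ℕ) (i : Fin 3 × Fin (n + 1)) => u a • P a i.1 i.2)
    (t := {w : Fin 3 × Fin (n + 1) → V | ∀ i, w i ∈ {w | ∃ v ∈ K, Γ.dist v w ≤ n}})
    (fun a _ i => by
      refine ⟨_, hu a, ?_⟩
      rw [hA.dist]
      have := tp_dist hA (hP.tp a) i.1 i.2 (by omega)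
      omega) hfin
  have key : ∀ a b : ℕ, (fun (i : Fin 3 × Fin (n + 1)) => u a • P a i.1 i.2) =
      (fun (i : Fin 3 × Fin (n + 1)) => u b • P b i.1 i.2) →
      Eqn n (fun i m => ((u b)⁻¹ * u a) • P a i m) (P b) := by
    intro a b h i m hm
    have := congrFun h (i, ⟨m, by omega⟩)
    simp only [] at this ⊢
    rw [mul_smul, this, inv_smul_smul]
  rcases lt_or_gt_of_ne hne with h | h
  · exact ⟨a, b, ha, h, _, key a b heq⟩
  · exact ⟨b, a, hb, h, _, key b a heq.symm⟩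

/-- **Lines of tripods which are not periodic have branches.** -/
theorem branch (hA : Act G Γ) {n : ℕ} {P : ℤ → Fin 3 → ℕ → V} (hP : Ln Γ n P)
    (hper : ¬ ∃ g : G, ∃ τ : ℤ, 0 < τ ∧ ∀ x, g • P x 0 0 = P (x + τ) 0 0) :
    ∃ x s, Br Γ n P x s := by
  by_contra hcon
  push Not at hcon
  obtain ⟨a, b, -, hab, g, hg⟩ := line_repeat hA hP 0
  obtain ⟨c, d, hc, hcd, g', hg'⟩ := line_repeat hA hP b
  have k1 := follow_or hA.med hP ((hP.shift a).smul hA g) hcon (y := b) (by simpa using hg)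
  have k2 := follow_or hA.med hP ((hP.shift c).smul hA g') hcon (y := d) (by simpa using hg')
  rcases k1 with k1 | k1
  · apply hper
    refine ⟨g, b - a, by omega, fun x => ?_⟩
    have := k1 (x - a)
    simp only [sub_add_cancel] at this
    rw [this]
    congr 1
    ring
  rcases k2 with k2 | k2
  · apply hper
    refine ⟨g', d - c, by omega, fun x => ?_⟩
    have := k2 (x - c)
    simp only [sub_add_cancel] at this
    rw [this]
    congr 1
    ring
  · apply hper
    refine ⟨g' * g, (c + d) - (a + b), by omega, fun x => ?_⟩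
    have e1 := k1 (x - a)
    have e2 := k2 ((b : ℤ) - (x - a) - c)
    simp only [sub_add_cancel] at e1 e2
    rw [mul_smul, e1, e2]
    congr 1
    ring

end Pool.Agent.H6.TP
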