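import Pool.Agent.H6.CF.Final

/-!
# Locally flat maps of products of tripods
-/

set_option autoImplicit false

namespace Pool.Agent.H6.TP

open Function Set Pool.Agent.H6.CF

variable {V : Type*} {Γ : SimpleGraph V}

/-- locally flat maps are flat, if there are no 3-cubes -/
theorem lf_flat (hΓ : IsMedian Γ) (h3 : NoThreeCube Γ) {r : ℤ × ℤ → V} (hr : LF Γ r) :
    IsFlat Γ r := by
  rintro ⟨x, y⟩ ⟨x', y'⟩
  have h0 : Γ.dist (r (x, y)) (r (x, y)) = 0 := by simp
  have e1 : Γ.dist (r (x, y)) (r (x + 1, y)) = 1 := (adj_iff _ _).2 (hr.hor x y)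
  have e2 : Γ.dist (r (x, y)) (r (x - 1, y)) = 1 := (adj_iff _ _).2 (by
    have := (hr.hor (x - 1) y).symm
    rwa [sub_add_cancel] at this)
  have e3 : Γ.dist (r (x, y)) (r (x, y + 1)) = 1 := (adj_iff _ _).2 (hr.ver x y)
  have e4 : Γ.dist (r (x, y)) (r (x, y - 1)) = 1 := (adj_iff _ _).2 (by
    have := (hr.ver x (y - 1)).symm
    rwa [sub_add_cancel] at this)
  -- the column
  have col : (Γ.dist (r (x, y)) (r (x, y')) : ℤ) = |y - y'| := by
    rcases le_total y y' with h | h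
    · obtain ⟨n, hn⟩ := Int.eq_ofNat_of_zero_le (show 0 ≤ y' - y by omega)
      have := right_n hΓ h3 hr.swap (r (x, y)) y x (by simp only []; omega) n
      simp only [] at this
      rw [show y' = y + n by omega, this, h0]
      rw [show y - (y + (n : ℤ)) = -n by ring, abs_neg, Nat.abs_cast]
      simp
    · obtain ⟨n, hn⟩ := Int.eq_ofNat_of_zero_le (show 0 ≤ y - y' by omega)
      have := left_n hΓ h3 hr.swap (r (x, y)) y x (by simp only []; omega) n
      simp only [] at this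
      rw [show y' = y - n by omega, this, h0]
      rw [show y - (y - (n : ℤ)) = n by ring, Nat.abs_cast]
      simp
  have p1 := hr.par hΓ (r (x, y)) x y (by omega) y'
  have p2 := hr.neg1.par hΓ (r (x, y)) (-x) y (by
    simp only []
    rw [neg_neg, show -(-x + 1) = x - 1 by ring]
    omega) y'
  simp only [] at p2 ⊢
  rw [neg_neg, show -(-x + 1) = x - 1 by ring] at p2
  rcases le_total x x' with h | h
  · obtain ⟨n, hn⟩ := Int.eq_ofNat_of_zero_le (show 0 ≤ x' - x by omega)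
    have := right_n hΓ h3 hr (r (x, y)) x y' p1 n
    rw [show x' = x + n by omega, this]
    rw [show x - (x + (n : ℤ)) = -n by ring, abs_neg, Nat.abs_cast]
    push_cast
    omega
  · obtain ⟨n, hn⟩ := Int.eq_ofNat_of_zero_le (show 0 ≤ x - x' by omega)
    have := left_n hΓ h3 hr (r (x, y)) x y' p2 n
    rw [show x' = x - n by omega, this]
    rw [show x - (x - (n : ℤ)) = n by ring, Nat.abs_cast]
    push_cast
    omega

/-- two arms of a tripod as a line: the arm `i` for negative numbers and the arm `j` for positive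
numbers -/
def fold {W : Type*} (i j : Fin 3) (φ : Fin 3 → ℕ → W) (x : ℤ) : W :=
  if 0 ≤ x then φ j x.toNat else φ i (-x).toNat

theorem fold_nat {W : Type*} (i j : Fin 3) (φ : Fin 3 → ℕ → W) (n : ℕ) : fold i j φ n = φ j n := by
  unfold fold
  rw [if_pos (by omega), Int.toNat_natCast]

theorem fold_neg {W : Type*} {i j : Fin 3} {φ : Fin 3 → ℕ → W} (h : φ i 0 = φ j 0) (n : ℕ) :
    fold i j φ (-n) = φ i n := by
  unfold fold
  rcases Nat.eq_zero_or_pos n with rfl | hn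
  · simp [h]
  · rw [if_neg (by omega), neg_neg, Int.toNat_natCast]

theorem fold_map {W W' : Type*} (i j : Fin 3) (φ : Fin 3 → ℕ → W) (F : W → W') (x : ℤ) :
    F (fold i j φ x) = fold i j (fun a n => F (φ a n)) x := by
  unfold fold
  split_ifs <;> rfl

/-- consecutive points of the line -/
theorem fold_step {W : Type*} {i j : Fin 3} {φ : Fin 3 → ℕ → W} (h : φ i 0 = φ j 0) (x : ℤ) :
    ∃ (b : Fin 3) (n : ℕ), (fold i j φ x = φ b n ∧ fold i j φ (x + 1) = φ b (n + 1)) ∨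
      (fold i j φ x = φ b (n + 1) ∧ fold i j φ (x + 1) = φ b n) := by
  rcases le_or_gt 0 x with hx | hx
  · obtain ⟨n, rfl⟩ := Int.eq_ofNat_of_zero_le hx
    refine ⟨j, n, Or.inl ⟨fold_nat _ _ _ _, ?_⟩⟩
    have := fold_nat i j φ (n + 1)
    push_cast at this
    exact this
  · obtain ⟨n, hn⟩ := Int.eq_ofNat_of_zero_le (show 0 ≤ -x - 1 by omega)
    refine ⟨i, n, Or.inr ⟨?_, ?_⟩⟩
    · have := fold_neg h (n + 1)
      rw [show x = -((n + 1 : ℕ) : ℤ) by push_cast; omega]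
      exact this
    · have := fold_neg h n
      rw [show x + 1 = -(n : ℤ) by omega]
      exact this

/-- points at distance two of the line -/
theorem fold_two {W : Type*} {i j : Fin 3} {φ : Fin 3 → ℕ → W} (h : φ i 0 = φ j 0) (x : ℤ) :
    (∃ (b : Fin 3) (n : ℕ), (fold i j φ x = φ b n ∧ fold i j φ (x + 2) = φ b (n + 2)) ∨
      (fold i j φ x = φ b (n + 2) ∧ fold i j φ (x + 2) = φ b n)) ∨
    (fold i j φ x = φ i 1 ∧ fold i j φ (x + 2) = φ j 1) := by
  rcases le_or_gt 0 x with hx | hx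
  · obtain ⟨n, rfl⟩ := Int.eq_ofNat_of_zero_le hx
    refine Or.inl ⟨j, n, Or.inl ⟨fold_nat _ _ _ _, ?_⟩⟩
    have := fold_nat i j φ (n + 2)
    push_cast at this
    exact this
  · rcases eq_or_lt_of_le (show x ≤ -1 by omega) with rfl | hx1
    · right
      constructor
      · have := fold_neg h 1
        simpa using this
      · have := fold_nat i j φ 1
        norm_num
        simpa using this
    · left
      obtain ⟨n, hn⟩ := Int.eq_ofNat_of_zero_le (show 0 ≤ -x - 2 by omega)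
      refine ⟨i, n, Or.inr ⟨?_, ?_⟩⟩
      · have := fold_neg h (n + 2)
        rw [show x = -((n + 2 : ℕ) : ℤ) by push_cast; omega]
        exact this
      · have := fold_neg h n
        rw [show x + 2 = -(n : ℤ) by omega]
        exact this

/-- locally flat maps of the product of two tripods: `F a c i m` is the point on the arm `a` at
distance `c` of the first tripod and on the arm `i` at distance `m` of the second tripod -/
structure LT (Γ : SimpleGraph V) (F : Fin 3 → ℕ → Fin 3 → ℕ → V) : Prop where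
  c1 : ∀ a a' i m, F a 0 i m = F a' 0 i m
  c2 : ∀ a c i i', F a c i 0 = F a c i' 0
  hor : ∀ a c i m, Γ.Adj (F a c i m) (F a (c + 1) i m)
  ver : ∀ a c i m, Γ.Adj (F a c i m) (F a c i (m + 1))
  h2 : ∀ a c i m, F a c i m ≠ F a (c + 2) i m
  h1 : ∀ a a' i m, a ≠ a' → F a 1 i m ≠ F a' 1 i m
  v2 : ∀ a c i m, F a c i m ≠ F a c i (m + 2)
  v1 : ∀ a c i i', i ≠ i' → F a c i 1 ≠ F a c i' 1
  dg : ∀ a c i m, F a c i m ≠ F a (c + 1) i (m + 1)
  ad : ∀ a c i m, F a c i (m + 1) ≠ F a (c + 1) i m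

/-- the planes in the product of two tripods -/
def pl (F : Fin 3 → ℕ → Fin 3 → ℕ → V) (a a' i i' : Fin 3) (z : ℤ × ℤ) : V :=
  fold i i' (fold a a' F z.1) z.2

theorem pl_lf {F : Fin 3 → ℕ → Fin 3 → ℕ → V} (hF : LT Γ F) {a a' i i' : Fin 3} (ha : a ≠ a')
    (hi : i ≠ i') : LF Γ (pl F a a' i i') := by
  have c1 : F a 0 = F a' 0 := by
    funext i m
    exact hF.c1 a a' i m
  have c2 : ∀ x : ℤ, (fold a a' F x) i 0 = (fold a a' F x) i' 0 := by
    intro x
    obtain ⟨b, n, ⟨h, -⟩ | ⟨h, -⟩⟩ := fold_step c1 x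
    · rw [h]; exact hF.c2 _ _ _ _
    · rw [h]; exact hF.c2 _ _ _ _
  have swp : ∀ (φ ψ : Fin 3 → ℕ → V) (y : ℤ), φ i 0 = φ i' 0 → ψ i 0 = ψ i' 0 →
      ∃ (b : Fin 3) (n : ℕ), (fold i i' φ y = φ b n ∧ fold i i' ψ y = ψ b n) := by
    intro φ ψ y _ _
    unfold fold
    split_ifs
    · exact ⟨_, _, rfl, rfl⟩
    · exact ⟨_, _, rfl, rfl⟩
  have swp2 : ∀ (φ ψ : Fin 3 → ℕ → V) (y : ℤ), φ i 0 = φ i' 0 → ψ i 0 = ψ i' 0 →
      ∃ (b : Fin 3) (n : ℕ), (fold i i' φ y = φ b n ∧ fold i i' ψ (y + 1) = ψ b (n + 1)) ∨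
        (fold i i' φ y = φ b (n + 1) ∧ fold i i' ψ (y + 1) = ψ b n) := by
    intro φ ψ y h1 h2
    have := fold_step (φ := fun b n => (φ b n, ψ b n)) (i := i) (j := i') (by simp [h1, h2]) y
    obtain ⟨b, n, h | h⟩ := this
    · refine ⟨b, n, Or.inl ?_⟩
      have e1 := congrArg Prod.fst h.1
      have e2 := congrArg Prod.snd h.2
      rw [fold_map i i' _ Prod.fst] at e1
      rw [fold_map i i' _ Prod.snd] at e2
      exact ⟨e1, e2⟩
    · refine ⟨b, n, Or.inr ?_⟩
      have e1 := congrArg Prod.fst h.1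
      have e2 := congrArg Prod.snd h.2
      rw [fold_map i i' _ Prod.fst] at e1
      rw [fold_map i i' _ Prod.snd] at e2
      exact ⟨e1, e2⟩
  constructor
  · -- hor
    intro x y
    obtain ⟨b, n, hx | hx⟩ := fold_step c1 x
    all_goals
      obtain ⟨b', n', e1, e2⟩ := swp (fold a a' F x) (fold a a' F (x + 1)) y (c2 _) (c2 _)
      simp only [pl]
      rw [e1, e2, hx.1, hx.2]
    · exact hF.hor _ _ _ _
    · exact (hF.hor _ _ _ _).symm
  · intro x y
    obtain ⟨b, n, ⟨hx, -⟩ | ⟨hx, -⟩⟩ := fold_step c1 x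
    all_goals
      obtain ⟨b', n', ⟨e1, e2⟩ | ⟨e1, e2⟩⟩ := fold_step (c2 x) y
      all_goals
        simp only [pl]
        rw [e1, e2, hx]
        first
          | exact hF.ver _ _ _ _
          | exact (hF.ver _ _ _ _).symm
  · intro x y
    obtain ⟨b', n', e1, e2⟩ := swp (fold a a' F x) (fold a a' F (x + 2)) y (c2 _) (c2 _)
    simp only [pl]
    rw [e1, e2]
    obtain ⟨b, n, hx | hx⟩ | hx := fold_two c1 x
    · rw [hx.1, hx.2]; exact hF.h2 _ _ _ _
    · rw [hx.1, hx.2]; exact (hF.h2 _ _ _ _).symm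
    · rw [hx.1, hx.2]; exact hF.h1 _ _ _ _ ha
  · intro x y
    simp only [pl]
    obtain ⟨b, n, ⟨hx, -⟩ | ⟨hx, -⟩⟩ := fold_step c1 x
    all_goals
      obtain ⟨b', n', hy | hy⟩ | hy := fold_two (c2 x) y
      · rw [hy.1, hy.2, hx]; exact hF.v2 _ _ _ _
      · rw [hy.1, hy.2, hx]; exact (hF.v2 _ _ _ _).symm
      · rw [hy.1, hy.2, hx]; exact hF.v1 _ _ _ _ hi
  · intro x y
    simp only [pl]
    obtain ⟨b', n', ⟨e1, e2⟩ | ⟨e1, e2⟩⟩ := swp2 (fold a a' F x) (fold a a' F (x + 1)) y (c2 _) (c2 _)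
    all_goals
      rw [e1, e2]
      obtain ⟨b, n, hx | hx⟩ := fold_step c1 x
      all_goals
        rw [hx.1, hx.2]
        first
          | exact hF.dg _ _ _ _
          | exact (hF.dg _ _ _ _).symm
          | exact hF.ad _ _ _ _
          | exact (hF.ad _ _ _ _).symm
  · intro x y
    simp only [pl]
    obtain ⟨b', n', ⟨e1, e2⟩ | ⟨e1, e2⟩⟩ := swp2 (fold a a' F (x + 1)) (fold a a' F x) y (c2 _) (c2 _)
    all_goals
      rw [e1, e2]
      obtain ⟨b, n, hx | hx⟩ := fold_step c1 x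
      all_goals
        rw [hx.1, hx.2]
        first
          | exact hF.dg _ _ _ _
          | exact (hF.dg _ _ _ _).symm
          | exact hF.ad _ _ _ _
          | exact (hF.ad _ _ _ _).symm

/-- the distance of two points of a tripod -/
def dT (a b : Fin 3 × ℕ) : ℤ := if a.1 = b.1 then |(a.2 : ℤ) - b.2| else a.2 + b.2

theorem ex_ne (a b : Fin 3) : ∃ (x y : Fin 3), x ≠ y ∧ ((a = b ∧ y = a) ∨ (a ≠ b ∧ x = a ∧ y = b)) := by
  by_cases h : a = b
  · have key : ∀ a : Fin 3, a + 1 ≠ a := by decide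
    exact ⟨a + 1, a, key a, Or.inl ⟨h, rfl⟩⟩
  · exact ⟨a, b, h, Or.inr ⟨h, rfl, rfl⟩⟩

/-- the positions of two points of a tripod on a line -/
theorem ex_line {W : Type*} (φ : Fin 3 → ℕ → W) (hφ : ∀ a b, φ a 0 = φ b 0) (a b : Fin 3 × ℕ) :
    ∃ (x y : Fin 3) (p q : ℤ), x ≠ y ∧ fold x y φ p = φ a.1 a.2 ∧ fold x y φ q = φ b.1 b.2 ∧
      |p - q| = dT a b := by
  obtain ⟨x, y, hxy, ⟨h1, h2⟩ | ⟨h1, h2, h3⟩⟩ := ex_ne a.1 b.1
  · refine ⟨x, y, a.2, b.2, hxy, ?_, ?_, ?_⟩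
    · rw [fold_nat, h2]
    · rw [fold_nat, h2, h1]
    · unfold dT
      rw [if_pos h1]
  · refine ⟨x, y, -(a.2 : ℤ), b.2, hxy, ?_, ?_, ?_⟩
    · rw [fold_neg (hφ _ _), h2]
    · rw [fold_nat, h3]
    · unfold dT
      rw [if_neg h1, show -(a.2 : ℤ) - b.2 = -((a.2 + b.2 : ℕ) : ℤ) by push_cast; ring, abs_neg,
        Nat.abs_cast]
      push_cast
      ring

/-- locally flat maps of products of tripods are isometric embeddings -/
theorem LT.dist (hΓ : IsMedian Γ) (h3 : NoThreeCube Γ) {F : Fin 3 → ℕ → Fin 3 → ℕ → V}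
    (hF : LT Γ F) (a a' b b' : Fin 3 × ℕ) :
    (Γ.dist (F a.1 a.2 b.1 b.2) (F a'.1 a'.2 b'.1 b'.2) : ℤ) = dT a a' + dT b b' := by
  obtain ⟨x, y, p, q, hxy, e1, e2, e3⟩ := ex_line F (fun a b => by
    funext i m
    exact hF.c1 a b i m) a a'
  obtain ⟨x', y', p', q', hxy', f1, f2, f3⟩ := ex_line
    (fun (i : Fin 3) (m : ℕ) => (F a.1 a.2 i m, F a'.1 a'.2 i m)) (fun i j => by
      rw [hF.c2 a.1 a.2 i j, hF.c2 a'.1 a'.2 i j]) b b'
  have hpl := lf_flat hΓ h3 (pl_lf hF hxy hxy')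
  have g1 : pl F x y x' y' (p, p') = F a.1 a.2 b.1 b.2 := by
    simp only [pl]
    rw [e1]
    have := congrArg Prod.fst f1
    rw [fold_map x' y' _ Prod.fst] at this
    exact this
  have g2 : pl F x y x' y' (q, q') = F a'.1 a'.2 b'.1 b'.2 := by
    simp only [pl]
    rw [e2]
    have := congrArg Prod.snd f2
    rw [fold_map x' y' _ Prod.snd] at this
    exact this
  rw [← g1, ← g2, hpl, ← e3, ← f3]

end Pool.Agent.H6.TP
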