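import Pool.Agent.H6.CF.Final

/-!
# Median graphs without flats are hyperbolic (in the presence of a cocompact action)

(Adapted from the library, R_pool_sql_team_seeded_9f66d723, W8h56.SW.Hyp.)
-/

set_option autoImplicit false

namespace Pool.Agent.H6.TP

open Set Pool.Agent.H6.CF

variable {V : Type*} {Γ : SimpleGraph V} {G : Type*} [Group G] [MulAction G V]

theorem d1 {a b : V} (h : Γ.Adj a b) : Γ.dist a b = 1 := (adj_iff a b).2 h

/-- An isometrically embedded grid of side `k`. -/
def IsGrid {V : Type*} (Γ : SimpleGraph V) (k : ℕ) (F : ℕ → ℕ → V) : Prop :=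
  ∀ i j i' j' : ℕ, i ≤ k → j ≤ k → i' ≤ k → j' ≤ k →
    (Γ.dist (F i j) (F i' j') : ℤ) = |(i : ℤ) - i'| + |(j : ℤ) - j'|

theorem geod (h : IsMedian Γ) {a b : V} {k : ℕ} (hab : Γ.dist a b = k) : ∃ u : ℕ → V,
    u 0 = a ∧ u k = b ∧ (∀ i < k, Γ.Adj (u i) (u (i + 1))) ∧
    ∀ i ≤ k, Γ.dist a (u i) = i ∧ Γ.dist (u i) b = k - i := by
  obtain ⟨p, hp⟩ := h.1.exists_walk_length_eq_dist a b
  rw [hab] at hp
  have hadj : ∀ i < k, Γ.Adj (p.getVert i) (p.getVert (i + 1)) := fun i hi =>
    p.adj_getVert_succ (by omega)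
  have hle : ∀ i j : ℕ, i + j ≤ k → Γ.dist (p.getVert i) (p.getVert (i + j)) ≤ j := by
    intro i j
    induction j with
    | zero => intro _; rw [add_zero, SimpleGraph.dist_self]
    | succ j ih =>
      intro hj
      have h1 := ih (by omega)
      have h2 := d1 (hadj (i + j) (by omega))
      have h3 := h.1.dist_triangle (u := p.getVert i) (v := p.getVert (i + j))
        (w := p.getVert (i + j + 1))
      rw [← add_assoc]
      omega
  have h0 : p.getVert 0 = a := p.getVert_zero
  have hk : p.getVert k = b := by rw [← hp]; exact p.getVert_length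
  refine ⟨p.getVert, h0, hk, hadj, fun i hi => ?_⟩
  have h1 := hle 0 i (by omega)
  have h2 := hle i (k - i) (by omega)
  rw [zero_add, h0] at h1
  rw [show i + (k - i) = k by omega, hk] at h2
  have h3 := h.1.dist_triangle (u := a) (v := p.getVert i) (w := b)
  omega

/-- A rectangle with equal sides spans an isometrically embedded grid. -/
theorem grid (h : IsMedian Γ) {a b c d : V} {k : ℕ} (hab : Γ.dist a b = k)
    (hbc : Γ.dist b c = k) (had : Γ.dist a d = k) (hdc : Γ.dist d c = k)
    (hac : Γ.dist a c = k + k) (hbd : Γ.dist b d = k + k) : ∃ F, IsGrid Γ k F := by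
  obtain ⟨u, u0, uk, uadj, hu⟩ := geod h hab
  obtain ⟨v, v0, vk, vadj, hv⟩ := geod h had
  have comm : ∀ x y : V, Γ.dist x y = Γ.dist y x := fun x y => SimpleGraph.dist_comm
  have tri : ∀ x y z : V, Γ.dist x z ≤ Γ.dist x y + Γ.dist y z := fun x y z =>
    h.1.dist_triangle
  choose med hmed huniq using h.2
  simp only at hmed huniq
  -- distances
  have huc : ∀ i ≤ k, Γ.dist (u i) c = k + k - i := by
    intro i hi
    have h1 := hu i hi
    have h2 := tri (u i) b c
    have h3 := tri a (u i) c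
    omega
  have hvc : ∀ j ≤ k, Γ.dist (v j) c = k + k - j := by
    intro i hi
    have h1 := hv i hi
    have h2 := tri (v i) d c
    have h3 := tri a (v i) c
    omega
  have huv : ∀ i ≤ k, ∀ j ≤ k, Γ.dist (u i) (v j) = i + j := by
    intro i hi j hj
    have h1 := hu i hi
    have h2 := hv j hj
    have h3 := tri (u i) a (v j)
    have h4 := tri b (u i) (v j)
    have h5 := tri b (v j) d
    rw [comm (u i) a] at h3
    rw [comm b (u i)] at h4
    omega
  set F : ℕ → ℕ → V := fun i j => med (u i) (v j) c with hF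
  have hFd : ∀ i ≤ k, ∀ j ≤ k, Γ.dist (F i j) (u i) = j ∧ Γ.dist (F i j) (v j) = i ∧
      Γ.dist (F i j) c = k + k - i - j := by
    intro i hi j hj
    obtain ⟨m1, m2, m3⟩ := hmed (u i) (v j) c
    have h1 := huc i hi
    have h2 := hvc j hj
    have h3 := huv i hi j hj
    have e1 : Γ.dist (u i) (F i j) = Γ.dist (F i j) (u i) := comm _ _
    have e2 : Γ.dist (v j) (F i j) = Γ.dist (F i j) (v j) := comm _ _
    rw [h3] at m1
    rw [h2] at m2
    rw [h1] at m3
    change Γ.dist (u i) (F i j) + Γ.dist (F i j) (v j) = _ at m1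
    change Γ.dist (v j) (F i j) + Γ.dist (F i j) c = _ at m2
    change Γ.dist (u i) (F i j) + Γ.dist (F i j) c = _ at m3
    omega
  have hFa : ∀ i ≤ k, ∀ j ≤ k, Γ.dist (F i j) a = i + j := by
    intro i hi j hj
    have h1 := hFd i hi j hj
    have h2 := hu i hi
    have h3 := tri (F i j) (u i) a
    have h4 := tri a (F i j) c
    rw [comm (u i) a] at h3
    rw [comm a (F i j)] at h4
    omega
  have hFb : ∀ i ≤ k, ∀ j ≤ k, Γ.dist (F i j) b + i = k + j := by
    intro i hi j hj
    have h1 := hFd i hi j hj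
    have h2 := hu i hi
    have h3 := tri (F i j) (u i) b
    have h4 := tri b (F i j) d
    have h5 := tri (F i j) (v j) d
    have h6 := hv j hj
    rw [comm b (F i j)] at h4
    omega
  -- adjacency
  have hstep1 : ∀ i < k, ∀ j ≤ k, Γ.dist (F i j) (F (i + 1) j) ≤ 1 := by
    intro i hi j hj
    have f1 := hFd i hi.le j hj
    have u1 := huc i hi.le
    have u2 := huc (i + 1) (by omega)
    have v1 := hvc j hj
    have uv := huv (i + 1) (by omega) j hj
    have e1 := d1 (uadj i hi)
    have e2 := tri (F i j) (u i) (u (i + 1))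
    have e3 := tri (u (i + 1)) (F i j) (v j)
    have e4 : Γ.dist (u (i + 1)) (F i j) = Γ.dist (F i j) (u (i + 1)) := comm _ _
    obtain ⟨m, hm⟩ : ∃ m, med (F i j) (u (i + 1)) c = m := ⟨_, rfl⟩
    obtain ⟨m1, m2, m3⟩ := hmed (F i j) (u (i + 1)) c
    rw [hm] at m1 m2 m3
    have c1 : Γ.dist (u (i + 1)) m = Γ.dist m (u (i + 1)) := comm _ _
    have c2 : Γ.dist (F i j) m = 1 := by omega
    have e5 := tri (u (i + 1)) m (v j)
    have e6 := tri m (F i j) (v j)
    have c3 : Γ.dist m (F i j) = Γ.dist (F i j) m := comm _ _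
    have c4 : Γ.dist m (v j) = Γ.dist (v j) m := comm _ _
    have : m = F (i + 1) j := by
      refine huniq (u (i + 1)) (v j) c m ⟨?_, ?_, ?_⟩ <;> omega
    rw [← this]
    omega
  have hstep2 : ∀ i ≤ k, ∀ j < k, Γ.dist (F i j) (F i (j + 1)) ≤ 1 := by
    intro i hi j hj
    have f1 := hFd i hi j hj.le
    have u1 := hvc j hj.le
    have u2 := hvc (j + 1) (by omega)
    have v1 := huc i hi
    have uv := huv i hi (j + 1) (by omega)
    have e1 := d1 (vadj j hj)
    have e2 := tri (F i j) (v j) (v (j + 1))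
    have e3 := tri (u i) (F i j) (v (j + 1))
    have e4 : Γ.dist (u i) (F i j) = Γ.dist (F i j) (u i) := comm _ _
    obtain ⟨m, hm⟩ : ∃ m, med (F i j) (v (j + 1)) c = m := ⟨_, rfl⟩
    obtain ⟨m1, m2, m3⟩ := hmed (F i j) (v (j + 1)) c
    rw [hm] at m1 m2 m3
    have c1 : Γ.dist (v (j + 1)) m = Γ.dist m (v (j + 1)) := comm _ _
    have c2 : Γ.dist (F i j) m = 1 := by omega
    have e5 := tri (u i) m (v (j + 1))
    have e6 := tri (u i) (F i j) m
    have c4 : Γ.dist m (u i) = Γ.dist (u i) m := comm _ _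
    have : m = F i (j + 1) := by
      refine huniq (u i) (v (j + 1)) c m ⟨?_, ?_, ?_⟩ <;> omega
    rw [← this]
    omega
  have hrow : ∀ j ≤ k, ∀ i n : ℕ, i + n ≤ k → Γ.dist (F i j) (F (i + n) j) ≤ n := by
    intro j hj i n
    induction n with
    | zero => intro _; rw [add_zero, SimpleGraph.dist_self]
    | succ n ih =>
      intro hn
      have h1 := ih (by omega)
      have h2 := hstep1 (i + n) (by omega) j hj
      have h3 := tri (F i j) (F (i + n) j) (F (i + n + 1) j)
      rw [← add_assoc]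
      omega
  have hcol : ∀ i ≤ k, ∀ j n : ℕ, j + n ≤ k → Γ.dist (F i j) (F i (j + n)) ≤ n := by
    intro i hi j n
    induction n with
    | zero => intro _; rw [add_zero, SimpleGraph.dist_self]
    | succ n ih =>
      intro hn
      have h1 := ih (by omega)
      have h2 := hstep2 i hi (j + n) (by omega)
      have h3 := tri (F i j) (F i (j + n)) (F i (j + n + 1))
      rw [← add_assoc]
      omega
  have hrow' : ∀ j ≤ k, ∀ i ≤ k, ∀ i' ≤ k, (Γ.dist (F i j) (F i' j) : ℤ) ≤ |(i : ℤ) - i'| := by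
    intro j hj i hi i' hi'
    rcases le_total i i' with h1 | h1
    · have := hrow j hj i (i' - i) (by omega)
      rw [show i + (i' - i) = i' by omega] at this
      rw [abs_of_nonpos (by omega)]
      omega
    · have := hrow j hj i' (i - i') (by omega)
      rw [show i' + (i - i') = i by omega, comm] at this
      rw [abs_of_nonneg (by omega)]
      omega
  have hcol' : ∀ i ≤ k, ∀ j ≤ k, ∀ j' ≤ k, (Γ.dist (F i j) (F i j') : ℤ) ≤ |(j : ℤ) - j'| := by
    intro i hi j hj j' hj'
    rcases le_total j j' with h1 | h1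
    · have := hcol i hi j (j' - j) (by omega)
      rw [show j + (j' - j) = j' by omega] at this
      rw [abs_of_nonpos (by omega)]
      omega
    · have := hcol i hi j' (j - j') (by omega)
      rw [show j' + (j - j') = j by omega, comm] at this
      rw [abs_of_nonneg (by omega)]
      omega
  refine ⟨F, fun i j i' j' hi hj hi' hj' => le_antisymm ?_ ?_⟩
  · have h1 := hrow' j hj i hi i' hi'
    have h2 := hcol' i' hi' j hj j' hj'
    have h3 := tri (F i j) (F i' j) (F i' j')
    omega
  · have a1 := hFa i hi j hj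
    have a2 := hFa i' hi' j' hj'
    have b1 := hFb i hi j hj
    have b2 := hFb i' hi' j' hj'
    have t1 := tri (F i j) (F i' j') a
    have t2 := tri (F i' j') (F i j) a
    have t3 := tri (F i j) (F i' j') b
    have t4 := tri (F i' j') (F i j) b
    have e1 : Γ.dist (F i' j') (F i j) = Γ.dist (F i j) (F i' j') := comm _ _
    rcases abs_cases ((i : ℤ) - i') with h1 | h1 <;> rcases abs_cases ((j : ℤ) - j') with h2 | h2 <;>
      omega

theorem IsGrid.mono {k l : ℕ} (hkl : k ≤ l) {F : ℕ → ℕ → V} (hF : IsGrid Γ l F) :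
    IsGrid Γ k F := fun i j i' j' h1 h2 h3 h4 =>
  hF i j i' j' (by omega) (by omega) (by omega) (by omega)

/-- Without large grids the bigons are thin. -/
theorem bigon (h : IsMedian Γ) {n : ℕ} (hno : ¬ ∃ F, IsGrid Γ (n + 1) F) {x y p q : V}
    (hp : Γ.dist x p + Γ.dist p y = Γ.dist x y) (hq : Γ.dist x q + Γ.dist q y = Γ.dist x y)
    (hpq : Γ.dist x p = Γ.dist x q) : Γ.dist p q ≤ 2 * n := by
  by_contra hcon
  have comm : ∀ x y : V, Γ.dist x y = Γ.dist y x := fun x y => SimpleGraph.dist_comm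
  have tri : ∀ x y z : V, Γ.dist x z ≤ Γ.dist x y + Γ.dist y z := fun x y z =>
    h.1.dist_triangle
  obtain ⟨m, ⟨m1, m2, m3⟩, -⟩ := h.2 x p q
  obtain ⟨l, ⟨l1, l2, l3⟩, -⟩ := h.2 y p q
  have e1 := comm m p
  have e2 := comm l p
  have e3 := comm y p
  have e4 := comm y q
  have e5 := comm y l
  have t1 := tri x m l
  have t2 := tri x l y
  have t3 := tri m p l
  obtain ⟨F, hF⟩ := grid h (a := m) (b := p) (c := l) (d := q) (k := Γ.dist m p) rfl (by omega)
    (by omega) (by
      have := comm q l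
      omega) (by omega) (by omega)
  exact hno ⟨F, hF.mono (by omega)⟩

/-- Slim triangles: every vertex of a side of a geodesic triangle is at distance at most `δ` from
one of the two other sides. -/
def SlimTriangles {V : Type*} (Γ : SimpleGraph V) (δ : ℕ) : Prop :=
  ∀ (x y z : V) (p : Γ.Walk x y) (q : Γ.Walk y z) (r : Γ.Walk x z), p.length = Γ.dist x y →
    q.length = Γ.dist y z → r.length = Γ.dist x z →
    ∀ u ∈ p.support, ∃ v, (v ∈ q.support ∨ v ∈ r.support) ∧ Γ.dist u v ≤ δ

theorem walk_between (h : IsMedian Γ) {x y : V} (p : Γ.Walk x y) (hp : p.length = Γ.dist x y)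
    (i : ℕ) (hi : i ≤ Γ.dist x y) : Γ.dist x (p.getVert i) = i ∧
      Γ.dist x (p.getVert i) + Γ.dist (p.getVert i) y = Γ.dist x y := by
  have h1 : Γ.dist x (p.getVert i) ≤ i := by
    have := SimpleGraph.dist_le (p.take i)
    rw [SimpleGraph.Walk.take_length] at this
    omega
  have h2 : Γ.dist (p.getVert i) y ≤ Γ.dist x y - i := by
    have := SimpleGraph.dist_le (p.drop i)
    rw [SimpleGraph.Walk.drop_length] at this
    omega
  have h3 := h.1.dist_triangle (u := x) (v := p.getVert i) (w := y)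
  omega

/-- Without large grids the triangles are slim. -/
theorem slim (h : IsMedian Γ) {n : ℕ} (hno : ¬ ∃ F, IsGrid Γ (n + 1) F) :
    SlimTriangles Γ (4 * n) := by
  have comm : ∀ x y : V, Γ.dist x y = Γ.dist y x := fun x y => SimpleGraph.dist_comm
  have tri : ∀ x y z : V, Γ.dist x z ≤ Γ.dist x y + Γ.dist y z := fun x y z =>
    h.1.dist_triangle
  -- the half of the statement
  have key : ∀ (x y z m : V) (r : Γ.Walk x z), r.length = Γ.dist x z →
      Γ.dist x m + Γ.dist m y = Γ.dist x y → Γ.dist x m + Γ.dist m z = Γ.dist x z →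
      ∀ u, Γ.dist x u + Γ.dist u y = Γ.dist x y → Γ.dist x u ≤ Γ.dist x m →
      ∃ v ∈ r.support, Γ.dist u v ≤ 4 * n := by
    intro x y z m r hr hmy hmz u hu hle
    obtain ⟨c, c0, ck, -, hc⟩ := geod h (a := x) (b := m) rfl
    obtain ⟨c1, c2⟩ := hc (Γ.dist x u) hle
    obtain ⟨w1, w2⟩ := walk_between h r hr (Γ.dist x u) (by omega)
    refine ⟨r.getVert (Γ.dist x u), r.getVert_mem_support _, ?_⟩
    have t1 := tri (c (Γ.dist x u)) m y
    have t2 := tri (c (Γ.dist x u)) m z
    have t3 := tri x (c (Γ.dist x u)) y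
    have t4 := tri x (c (Γ.dist x u)) z
    have b1 := bigon h hno (x := x) (y := y) (p := u) (q := c (Γ.dist x u)) hu (by omega) (by omega)
    have b2 := bigon h hno (x := x) (y := z) (p := c (Γ.dist x u)) (q := r.getVert (Γ.dist x u))
      (by omega) w2 (by omega)
    have t5 := tri u (c (Γ.dist x u)) (r.getVert (Γ.dist x u))
    omega
  intro x y z p q r hp hq hr u hu
  obtain ⟨m, ⟨m1, m2, m3⟩, -⟩ := h.2 x y z
  have hu' : Γ.dist x u + Γ.dist u y = Γ.dist x y := by
    obtain ⟨i, hi, hi'⟩ := SimpleGraph.Walk.mem_support_iff_exists_getVert.1 hu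
    obtain ⟨-, h2⟩ := walk_between h p hp i (by omega)
    rwa [hi] at h2
  rcases le_total (Γ.dist x u) (Γ.dist x m) with h1 | h1
  · obtain ⟨v, hv, hd⟩ := key x y z m r hr m1 m3 u hu' h1
    exact ⟨v, Or.inr hv, hd⟩
  · obtain ⟨v, hv, hd⟩ := key y x z m q hq (by
      have := comm y m
      have := comm m x
      have := comm y x
      omega) m2 u (by
      have := comm y u
      have := comm u x
      have := comm y x
      omega) (by
      have := comm y u
      have := comm y m
      omega)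
    exact ⟨v, Or.inl hv, hd⟩

/-- Large grids converge to a flat. -/
theorem limit (hG : Act G Γ) (h : ∀ n, ∃ F, IsGrid Γ n F) : ∃ f, IsFlat Γ f := by
  classical
  choose F hF using h
  obtain ⟨K, hK, hcov⟩ := hG.orb
  choose γ hγ using fun v : V => hcov v
  -- recentred grids
  let f' : ℕ → ℤ × ℤ → V := fun n z =>
    γ (F (2 * n) n n) • F (2 * n) ((n : ℤ) + z.1).toNat ((n : ℤ) + z.2).toNat
  have hf' : ∀ (n : ℕ) (z w : ℤ × ℤ), |z.1| ≤ (n : ℤ) → |z.2| ≤ (n : ℤ) → |w.1| ≤ (n : ℤ) → |w.2| ≤ (n : ℤ) →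
      (Γ.dist (f' n z) (f' n w) : ℤ) = |z.1 - w.1| + |z.2 - w.2| := by
    intro n z w h1 h2 h3 h4
    rw [abs_le] at h1 h2 h3 h4
    show (Γ.dist (γ (F (2 * n) n n) • _) (γ (F (2 * n) n n) • _) : ℤ) = _
    rw [hG.dist, hF (2 * n) _ _ _ _ (by omega) (by omega) (by omega) (by omega)]
    rw [Int.toNat_of_nonneg (by omega), Int.toNat_of_nonneg (by omega),
      Int.toNat_of_nonneg (by omega), Int.toNat_of_nonneg (by omega)]
    congr 2 <;> ring
  have hf0 : ∀ n, f' n (0, 0) ∈ K := by
    intro n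
    have := hγ (F (2 * n) n n)
    show γ (F (2 * n) n n) • F (2 * n) ((n : ℤ) + 0).toNat ((n : ℤ) + 0).toNat ∈ K
    rw [add_zero, Int.toNat_natCast]
    exact this
  have hlim : ∀ z : ℤ × ℤ, ∃ v, ∀ᶠ n in (Filter.hyperfilter ℕ : Filter ℕ), f' n z = v := by
    intro z
    have hfin : (⋃ v ∈ K, {w | Γ.dist v w ≤ (|z.1| + |z.2|).toNat}).Finite :=
      hK.biUnion fun v _ => hG.ball _ v
    have hev : ∀ᶠ n in (Filter.hyperfilter ℕ : Filter ℕ),
        f' n z ∈ ⋃ v ∈ K, {w | Γ.dist v w ≤ (|z.1| + |z.2|).toNat} := by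
      apply Nat.hyperfilter_le_atTop
      filter_upwards [Filter.eventually_ge_atTop (|z.1| + |z.2|).toNat] with n hn
      refine Set.mem_biUnion (hf0 n) ?_
      have h1 := abs_nonneg z.1
      have h2 := abs_nonneg z.2
      have h3 := hf' n (0, 0) z (by simp) (by simp) (by omega) (by omega)
      simp only [zero_sub, abs_neg] at h3
      show Γ.dist (f' n (0, 0)) (f' n z) ≤ _
      omega
    have hU : (⋃ v ∈ (⋃ v ∈ K, {w | Γ.dist v w ≤ (|z.1| + |z.2|).toNat}), {n | f' n z = v}) ∈
        Filter.hyperfilter ℕ := by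
      refine Filter.mem_of_superset hev fun n hn => ?_
      exact Set.mem_biUnion hn rfl
    obtain ⟨v, -, hv⟩ := (Ultrafilter.finite_biUnion_mem_iff hfin).1 hU
    exact ⟨v, hv⟩
  choose f hf using hlim
  refine ⟨f, fun z w => ?_⟩
  have hbig : ∀ᶠ n in (Filter.hyperfilter ℕ : Filter ℕ),
      (|z.1| + |z.2| + |w.1| + |w.2|).toNat ≤ n :=
    Nat.hyperfilter_le_atTop (Filter.eventually_ge_atTop _)
  obtain ⟨n, h1, h2, h3⟩ := ((hf z).and ((hf w).and hbig)).exists
  have a1 := abs_nonneg z.1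
  have a2 := abs_nonneg z.2
  have a3 := abs_nonneg w.1
  have a4 := abs_nonneg w.2
  have := hf' n z w (by omega) (by omega) (by omega) (by omega)
  rw [h1, h2] at this
  exact this

/-- **Without flats the triangles are slim.** -/
theorem hyp_of_noFlat (hG : Act G Γ) (hno : ¬ ∃ f, IsFlat Γ f) : ∃ δ, SlimTriangles Γ δ := by
  by_contra hcon
  refine hno (limit hG fun n => ?_)
  by_contra h
  cases n with
  | zero =>
    obtain ⟨v⟩ : Nonempty V := hG.med.1.nonempty
    refine h ⟨fun _ _ => v, fun i j i' j' h1 h2 h3 h4 => ?_⟩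
    have : i = i' := by omega
    have : j = j' := by omega
    subst_vars
    simp
  | succ n => exact hcon ⟨_, slim hG.med h⟩

end Pool.Agent.H6.TP
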