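import Pool.Agent.H6.TP.Branch

/-!
# Limits of products of tripods
-/

set_option autoImplicit false

namespace Pool.Agent.H6.TP

open Function Set Pool.Agent.H6.CF

variable {V : Type*} {Γ : SimpleGraph V}

/-- products of tripods with arms of length `n` -/
structure Sp (Γ : SimpleGraph V) (n : ℕ) (U : Fin 3 → ℕ → Fin 3 → ℕ → V) : Prop where
  tp : ∀ a c, c ≤ n → Tp Γ n (U a c)
  nb : ∀ a c, c < n → Nb Γ n (U a c) (U a (c + 1))
  nn : ∀ a c, c + 2 ≤ n → Nen n (U a c) (U a (c + 2))
  z : ∀ a a', Eqn n (U a 0) (U a' 0)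
  o : ∀ a a', a ≠ a' → Nen n (U a 1) (U a' 1)

theorem Br.sp {n : ℕ} {P : ℤ → Fin 3 → ℕ → V} (hP : Ln Γ n P) {x : ℤ} {s : ℕ → Fin 3 → ℕ → V}
    (h : Br Γ n P x s) : ∃ U, Sp Γ n U := by
  refine ⟨![fun c => P (x - c), fun c => P (x + c), s], ?_, ?_, ?_, ?_, ?_⟩
  · intro a c hc
    fin_cases a
    · exact hP.tp _
    · exact hP.tp _
    · exact h.tp c hc
  · intro a c hc
    fin_cases a
    · have := (hP.nb (x - (c + 1))).symm
      rw [show x - ((c : ℤ) + 1) + 1 = x - c by ring] at this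
      change Nb Γ n (P (x - c)) (P (x - ((c + 1 : ℕ) : ℤ)))
      push_cast
      exact this
    · have := hP.nb (x + c)
      change Nb Γ n (P (x + c)) (P (x + ((c + 1 : ℕ) : ℤ)))
      push_cast
      rw [← add_assoc]
      exact this
    · exact h.nb c hc
  · intro a c hc
    fin_cases a
    · have := fun i m hm => (hP.nn (x - (c + 2)) i m hm).symm
      rw [show x - ((c : ℤ) + 2) + 2 = x - c by ring] at this
      change Nen n (P (x - c)) (P (x - ((c + 2 : ℕ) : ℤ)))
      push_cast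
      exact this
    · have := hP.nn (x + c)
      change Nen n (P (x + c)) (P (x + ((c + 2 : ℕ) : ℤ)))
      push_cast
      rw [← add_assoc]
      exact this
    · exact h.nn c hc
  · have key : ∀ a, Eqn n ((![fun c : ℕ => P (x - c), fun c : ℕ => P (x + c), s] : Fin 3 → ℕ → Fin 3 → ℕ → V) a 0) (P x) := by
      intro a
      fin_cases a
      · change Eqn n (P (x - ((0 : ℕ) : ℤ))) (P x)
        simp [Eqn]
      · change Eqn n (P (x + ((0 : ℕ) : ℤ))) (P x)
        simp [Eqn]
      · exact h.s0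
    intro a a' i m hm
    rw [key a i m hm, key a' i m hm]
  · have h1 : Nen n (P (x - ((1 : ℕ) : ℤ))) (P (x + ((1 : ℕ) : ℤ))) := by
      have := hP.nn (x - 1)
      rw [show x - 1 + 2 = x + 1 by ring] at this
      simpa using this
    have h2 : Nen n (s 1) (P (x + ((1 : ℕ) : ℤ))) := by simpa using h.n1
    have h3 : Nen n (s 1) (P (x - ((1 : ℕ) : ℤ))) := by simpa using h.n2
    intro a a' ha
    fin_cases a <;> fin_cases a'
    · exact absurd rfl ha
    · exact h1
    · exact fun i m hm => (h3 i m hm).symm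
    · exact fun i m hm => (h1 i m hm).symm
    · exact absurd rfl ha
    · exact fun i m hm => (h2 i m hm).symm
    · exact h3
    · exact h2
    · exact absurd rfl ha

variable {G : Type*} [Group G] [MulAction G V]

theorem Sp.dist (hA : Act G Γ) {n : ℕ} {U : Fin 3 → ℕ → Fin 3 → ℕ → V} (h : Sp Γ n U)
    (a : Fin 3) (c : ℕ) (hc : c ≤ n) (i : Fin 3) (m : ℕ) (hm : m ≤ n) :
    Γ.dist (U 0 0 0 0) (U a c i m) ≤ c + m := by
  have h1 : Γ.dist (U 0 0 0 0) (U a c 0 0) ≤ c := by
    clear hm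
    induction c with
    | zero =>
      rw [h.z 0 a 0 0 (by omega)]
      simp
    | succ c ih =>
      have h1 := ih (by omega)
      have h2 := hA.med.tri (U 0 0 0 0) (U a c 0 0) (U a (c + 1) 0 0)
      have h3 := (adj_iff _ _).2 ((h.nb a c (by omega)).hor 0 0 (by omega))
      omega
  have h2 := tp_dist hA (h.tp a c hc) i m hm
  have h3 := hA.med.tri (U 0 0 0 0) (U a c 0 0) (U a c i m)
  omega

/-- large products of tripods converge to a product of infinite tripods -/
theorem sp_limit (hA : Act G Γ) (h : ∀ n, ∃ U, Sp Γ n U) : ∃ F, LT Γ F := by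
  classical
  choose U hU using h
  obtain ⟨K, hK, hGK⟩ := hA.orb
  choose g hg using fun n => hGK (U n 0 0 0 0)
  obtain ⟨f, hf⟩ := cluster
    (fun (n : ℕ) (p : (Fin 3 × ℕ) × (Fin 3 × ℕ)) =>
      if p.1.2 ≤ n ∧ p.2.2 ≤ n then g n • U n p.1.1 p.1.2 p.2.1 p.2.2 else g n • U n 0 0 0 0)
    (fun p => {w | ∃ u ∈ K, Γ.dist u w ≤ p.1.2 + p.2.2}) (fun p => hA.ballK hK _) (fun n p => by
      refine ⟨_, hg n, ?_⟩
      split_ifs with h
      · rw [hA.dist]
        exact (hU n).dist hA _ _ h.1 _ _ h.2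
      · simp)
  have key : ∀ a c i m a' c' i' m', ∀ N : ℕ, c ≤ N → m ≤ N → c' ≤ N → m' ≤ N → ∃ n, N ≤ n ∧
      f ((a, c), (i, m)) = g n • U n a c i m ∧ f ((a', c'), (i', m')) = g n • U n a' c' i' m' := by
    intro a c i m a' c' i' m' N h1 h2 h3 h4
    obtain ⟨n, hn, hn2⟩ := hf {((a, c), (i, m)), ((a', c'), (i', m'))} (by simp) N
    refine ⟨n, hn, ?_, ?_⟩
    · rw [← hn2 _ (by simp), if_pos ⟨by simp only []; omega, by simp only []; omega⟩]
    · rw [← hn2 _ (by simp), if_pos ⟨by simp only []; omega, by simp only []; omega⟩]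
  refine ⟨fun a c i m => f ((a, c), (i, m)), ?_, ?_, ?_, ?_, ?_, ?_, ?_, ?_, ?_, ?_⟩
  · intro a a' i m
    obtain ⟨n, hn, e1, e2⟩ := key a 0 i m a' 0 i m m (by omega) (by omega) (by omega) (by omega)
    rw [e1, e2, (hU n).z a a' i m hn]
  · intro a c i i'
    obtain ⟨n, hn, e1, e2⟩ := key a c i 0 a c i' 0 c (by omega) (by omega) (by omega) (by omega)
    rw [e1, e2, ((hU n).tp a c hn).c i i']
  · intro a c i m
    obtain ⟨n, hn, e1, e2⟩ := key a c i m a (c + 1) i m (c + 1 + m) (by omega) (by omega) (by omega) (by omega)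
    rw [e1, e2]
    exact hA.aut _ _ _ (((hU n).nb a c (by omega)).hor i m (by omega))
  · intro a c i m
    obtain ⟨n, hn, e1, e2⟩ := key a c i m a c i (m + 1) (c + (m + 1)) (by omega) (by omega) (by omega) (by omega)
    rw [e1, e2]
    exact hA.aut _ _ _ (((hU n).tp a c (by omega)).ver i m (by omega))
  · intro a c i m
    obtain ⟨n, hn, e1, e2⟩ := key a c i m a (c + 2) i m (c + 2 + m) (by omega) (by omega) (by omega) (by omega)
    rw [e1, e2]
    exact fun e => (hU n).nn a c (by omega) i m (by omega) (smul_left_cancel _ e)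
  · intro a a' i m ha
    obtain ⟨n, hn, e1, e2⟩ := key a 1 i m a' 1 i m (1 + m) (by omega) (by omega) (by omega) (by omega)
    rw [e1, e2]
    exact fun e => (hU n).o a a' ha i m (by omega) (smul_left_cancel _ e)
  · intro a c i m
    obtain ⟨n, hn, e1, e2⟩ := key a c i m a c i (m + 2) (c + (m + 2)) (by omega) (by omega) (by omega) (by omega)
    rw [e1, e2]
    exact fun e => ((hU n).tp a c (by omega)).v2 i m (by omega) (smul_left_cancel _ e)
  · intro a c i i' hi
    obtain ⟨n, hn, e1, e2⟩ := key a c i 1 a c i' 1 (c + 1) (by omega) (by omega) (by omega) (by omega)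
    rw [e1, e2]
    exact fun e => ((hU n).tp a c (by omega)).v1 i i' hi (by omega) (smul_left_cancel _ e)
  · intro a c i m
    obtain ⟨n, hn, e1, e2⟩ := key a c i m a (c + 1) i (m + 1) (c + 1 + (m + 1)) (by omega) (by omega) (by omega) (by omega)
    rw [e1, e2]
    exact fun e => ((hU n).nb a c (by omega)).dg i m (by omega) (smul_left_cancel _ e)
  · intro a c i m
    obtain ⟨n, hn, e1, e2⟩ := key a c i (m + 1) a (c + 1) i m (c + 1 + (m + 1)) (by omega) (by omega) (by omega) (by omega)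
    rw [e1, e2]
    exact fun e => ((hU n).nb a c (by omega)).ad i m (by omega) (smul_left_cancel _ e)

end Pool.Agent.H6.TP
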