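import Pool.Agent.H6.TP.Limit

/-!
# Products of tripods in complexes with flats
-/

set_option autoImplicit false

namespace Pool.Agent.H6.TP

open Function Set Pool.Agent.H6.CF

variable {V : Type*} {Γ : SimpleGraph V} {G : Type*} [Group G] [MulAction G V]

/-- the tripods at the points of a line of separation -/
def tri (h k : ℤ × ℤ → V) (x : ℤ) : Fin 3 → ℕ → V :=
  ![fun m => h (x, -m), fun m => h (x, m), fun m => k (x, m)]

theorem tri_ln {h k : ℤ × ℤ → V} (fh : IsFlat Γ h) (fk : IsFlat Γ k)
    (ag : ∀ x y : ℤ, y ≤ 0 → h (x, y) = k (x, y)) (ne : ∀ x, h (x, 1) ≠ k (x, 1)) (n : ℕ) :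
    Ln Γ n (tri h k) where
  tp := by
    intro x
    constructor
    · have h0 : h (x, 0) = k (x, 0) := ag x 0 le_rfl
      have key : ∀ i, tri h k x i 0 = h (x, 0) := by
        intro i
        fin_cases i
        · change h (x, -((0 : ℕ) : ℤ)) = _; simp
        · rfl
        · exact h0.symm
      intro i j
      rw [key, key]
    · intro i m _
      fin_cases i
      · exact fh.adj (by simp only []; push_cast; rw [show -(m : ℤ) - -((m : ℤ) + 1) = 1 by ring]; simp)
      · exact fh.adj (by simp only []; push_cast; rw [show (m : ℤ) - ((m : ℤ) + 1) = -1 by ring]; simp)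
      · exact fk.adj (by simp only []; push_cast; rw [show (m : ℤ) - ((m : ℤ) + 1) = -1 by ring]; simp)
    · intro i m _
      fin_cases i
      · intro e
        have := fh.inj e
        simp only [Prod.mk.injEq] at this
        push_cast at this
        omega
      · intro e
        have := fh.inj e
        simp only [Prod.mk.injEq] at this
        push_cast at this
        omega
      · intro e
        have := fk.inj e
        simp only [Prod.mk.injEq] at this
        push_cast at this
        omega
    · have a1 : h (x, -((1 : ℕ) : ℤ)) ≠ h (x, ((1 : ℕ) : ℤ)) := fun e => by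
        have := congrArg Prod.snd (fh.inj e)
        simp only [Nat.cast_one] at this
        omega
      have a2 : h (x, -((1 : ℕ) : ℤ)) ≠ k (x, ((1 : ℕ) : ℤ)) := fun e => by
        rw [ag _ _ (by simp)] at e
        have := congrArg Prod.snd (fk.inj e)
        simp only [Nat.cast_one] at this
        omega
      have a3 : h (x, ((1 : ℕ) : ℤ)) ≠ k (x, ((1 : ℕ) : ℤ)) := by
        simpa using ne x
      intro i j hij _
      fin_cases i <;> fin_cases j
      · exact absurd rfl hij
      · exact a1
      · exact a2
      · exact a1.symm
      · exact absurd rfl hij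
      · exact a3
      · exact a2.symm
      · exact a3.symm
      · exact absurd rfl hij
  nb := by
    intro x
    constructor
    · intro i m _
      fin_cases i
      · exact fh.adj (by simp)
      · exact fh.adj (by simp)
      · exact fk.adj (by simp)
    · intro i m _
      fin_cases i
      · intro e
        have := fh.inj e
        simp only [Prod.mk.injEq] at this
        omega
      · intro e
        have := fh.inj e
        simp only [Prod.mk.injEq] at this
        omega
      · intro e
        have := fk.inj e
        simp only [Prod.mk.injEq] at this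
        omega
    · intro i m _
      fin_cases i
      · intro e
        have := fh.inj e
        simp only [Prod.mk.injEq] at this
        omega
      · intro e
        have := fh.inj e
        simp only [Prod.mk.injEq] at this
        omega
      · intro e
        have := fk.inj e
        simp only [Prod.mk.injEq] at this
        omega
  nn := by
    intro x i m _
    fin_cases i
    · intro e
      have := fh.inj e
      simp only [Prod.mk.injEq] at this
      omega
    · intro e
      have := fh.inj e
      simp only [Prod.mk.injEq] at this
      omega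
    · intro e
      have := fk.inj e
      simp only [Prod.mk.injEq] at this
      omega

/-- **A complex with a convex flat, whose group has no `ℤ²`, contains locally flat products of two
infinite tripods.** -/
theorem main (hA : Act G Γ) (hZ : ¬ ∃ φ : Multiplicative (ℤ × ℤ) →* G, Injective φ)
    {f : ℤ × ℤ → V} (hf : IsFlat Γ f) (hc : Conv Γ f) : ∃ F, LT Γ F := by
  have hS := Orb.sys hA hf hc
  obtain ⟨l, ⟨h, hh, k, hk, ag, ne, hl⟩, hper⟩ := strict hA hZ hS ⟨f, Orb.self f⟩
  have hper' : ¬ ∃ g : G, ∃ τ : ℤ, 0 < τ ∧ ∀ x, g • tri h k x 0 0 = tri h k (x + τ) 0 0 := by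
    rintro ⟨g, τ, hτ, hg⟩
    refine hper ⟨g, τ, hτ, fun x => ?_⟩
    have := hg x
    change g • h (x, -((0 : ℕ) : ℤ)) = h (x + τ, -((0 : ℕ) : ℤ)) at this
    rw [hl, hl]
    simpa using this
  have ne' := ne_all hA (hS.flat h hh) (hS.flat k hk) ag ne
  refine sp_limit hA fun n => ?_
  have hln := tri_ln (hS.flat h hh) (hS.flat k hk) ag ne' n
  obtain ⟨x, s, hs⟩ := branch hA hln hper'
  exact hs.sp hln

end Pool.Agent.H6.TP
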